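import Pool.Agent.H24.SCG2.Stmts4
import Pool.Agent.H24.SCG2.Base3

/-!
# SCG2, module UUG: two conics generate
-/

set_option autoImplicit false

namespace Pool.Agent.H77.SCG2

open Pool.SCG Matrix

variable {F : Type} [Field F]

/-- upper unipotent matrices with two entries -/
def E2 (a b : F) : Matrix (Fin 3) (Fin 3) F := !![1, 0, a; 0, 1, b; 0, 0, 1]

lemma E2_mul (a b a' b' : F) : E2 a b * E2 a' b' = E2 (a + a') (b + b') := by
  unfold E2
  ext i j
  fin_cases i <;> fin_cases j <;> simp [Matrix.mul_apply, Fin.sum_univ_three] <;> ring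

lemma E2_zero : E2 (0 : F) 0 = 1 := by
  unfold E2
  ext i j
  fin_cases i <;> fin_cases j <;> simp

theorem uug_thm (hTRV : TRVStmt) : UUGStmt := by
  intro F _ h2 H c g g' hg hg' hgg hc hcA hU hU'
  obtain ⟨dl, hdl⟩ : ∃ dl, dl = g'⁻¹ - g⁻¹ := ⟨_, rfl⟩
  have hdl0 : dl ≠ 0 := by
    rw [hdl]
    intro h
    have h1 : g'⁻¹ = g⁻¹ := sub_eq_zero.1 h
    exact hgg (inv_injective h1).symm
  -- the products of elements of the two conics
  have hV : ∀ x : F, InA H (E2 (x ^ 2 * dl / 2) (x * dl)) := by
    intro x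
    have h1 := (hU x).mul (hU' (-x))
    have e : Ug g x * Ug g' (-x) = E2 (x ^ 2 * dl / 2) (x * dl) := by
      rw [hdl]
      unfold Ug E2
      ext i j
      fin_cases i <;> fin_cases j <;> simp [Matrix.mul_apply, Fin.sum_univ_three] <;> field_simp <;> ring
    rwa [e] at h1
  have hInv : ∀ a b : F, InA H (E2 a b) → InA H (E2 (-a) (-b)) := by
    intro a b h
    refine h.inv ?_
    rw [E2_mul, add_neg_cancel, add_neg_cancel, E2_zero]
  -- first transvections
  have h13 : ∀ t : F, InA H (E2 t 0) := by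
    intro t
    have h1 := ((hV (-t / dl)).mul (hV 1)).mul (hInv _ _ (hV (-t / dl + 1)))
    rw [E2_mul, E2_mul] at h1
    have e1 : (-t / dl) ^ 2 * dl / 2 + 1 ^ 2 * dl / 2 + -((-t / dl + 1) ^ 2 * dl / 2) = t := by
      field_simp
      ring
    have e2 : -t / dl * dl + 1 * dl + -((-t / dl + 1) * dl) = 0 := by ring
    rwa [e1, e2] at h1
  have hE : ∀ a b : F, InA H (E2 a b) := by
    intro a b
    have h1 := (hV (b / dl)).mul (h13 (a - (b / dl) ^ 2 * dl / 2))
    rw [E2_mul] at h1
    have e1 : (b / dl) ^ 2 * dl / 2 + (a - (b / dl) ^ 2 * dl / 2) = a := by ring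
    have e2 : b / dl * dl + 0 = b := by field_simp; ring
    rwa [e1, e2] at h1
  have h12 : ∀ t : F, InA H !![1, t, 0; 0, 1, 0; 0, 0, 1] := by
    intro t
    have h1 := (hU t).mul (hE (-(t ^ 2 / (2 * g))) (t / g))
    have e : Ug g t * E2 (-(t ^ 2 / (2 * g))) (t / g) = !![1, t, 0; 0, 1, 0; 0, 0, 1] := by
      unfold Ug E2
      ext i j
      fin_cases i <;> fin_cases j <;> simp [Matrix.mul_apply, Fin.sum_univ_three] <;> field_simp <;> ring
    rwa [e] at h1
  -- conjugation with `c`
  have hcc : (An (1 : F)) * An 1 = (1 : F) • (1 : Matrix (Fin 3) (Fin 3) F) := by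
    unfold An
    ext i j
    fin_cases i <;> fin_cases j <;> simp [Matrix.mul_apply, Fin.sum_univ_three]
  have hconj : ∀ A : Matrix (Fin 3) (Fin 3) F, InA H A → InA H (An 1 * A * An 1) := by
    intro A hA
    have h1 := hA.conj hc hcA hcc one_ne_zero
    rwa [inv_one, one_smul] at h1
  refine hTRV F H 1 ?_
  intro i j hij t
  have e1 : ((1 : GL (Fin 3) F) : Matrix (Fin 3) (Fin 3) F) * transvection i j t *
      (((1 : GL (Fin 3) F)⁻¹ : GL (Fin 3) F) : Matrix (Fin 3) (Fin 3) F) = transvection i j t := by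
    rw [inv_one, Units.val_one, one_mul, mul_one]
  rw [e1]
  have key : ∀ A : Matrix (Fin 3) (Fin 3) F, InA H A → A = transvection i j t →
      InA H (transvection i j t) := fun A hA h => h ▸ hA
  fin_cases i <;> fin_cases j
  · exact absurd rfl hij
  · refine key _ (h12 t) ?_
    ext i j
    fin_cases i <;> fin_cases j <;> simp [transvection, Matrix.single_apply, Matrix.one_apply]
  · refine key _ (h13 t) ?_
    unfold E2
    ext i j
    fin_cases i <;> fin_cases j <;> simp [transvection, Matrix.single_apply, Matrix.one_apply]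
  · refine key _ (hconj _ (hE 0 (-t))) ?_
    unfold An E2
    ext i j
    fin_cases i <;> fin_cases j <;>
      simp [transvection, Matrix.single_apply, Matrix.one_apply, Matrix.mul_apply, Fin.sum_univ_three]
  · exact absurd rfl hij
  · refine key _ (hE 0 t) ?_
    unfold E2
    ext i j
    fin_cases i <;> fin_cases j <;> simp [transvection, Matrix.single_apply, Matrix.one_apply]
  · refine key _ (hconj _ (hE t 0)) ?_
    unfold An E2
    ext i j
    fin_cases i <;> fin_cases j <;>
      simp [transvection, Matrix.single_apply, Matrix.one_apply, Matrix.mul_apply, Fin.sum_univ_three]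
  · refine key _ (hconj _ (h12 (-t))) ?_
    unfold An
    ext i j
    fin_cases i <;> fin_cases j <;>
      simp [transvection, Matrix.single_apply, Matrix.one_apply, Matrix.mul_apply, Fin.sum_univ_three]
  · exact absurd rfl hij

end Pool.Agent.H77.SCG2
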